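import Pool.Agent.Y234.GS.StmC
import Pool.Agent.Y73.GS.Bch

/-! Job GS-BERA: smoothness of the generic hyperplane section. -/

set_option autoImplicit false

namespace Pool.Agent.Y786.GS

open MvPolynomial Pool.Agent.Y234.GS

/-! ### dual numbers -/

section dual

variable {K ι : Type} [Field K] [Fintype ι]

/-- first order Taylor expansion -/
noncomputable def psi (y v : ι → K) : MvPolynomial ι K →ₐ[K] DualNumber K :=
  aeval (fun l => TrivSqZeroExt.inl (y l) + TrivSqZeroExt.inr (v l))

theorem psi_fst (y v : ι → K) (G : MvPolynomial ι K) : (psi y v G).fst = eval y G := by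
  unfold psi
  induction G using MvPolynomial.induction_on with
  | C a => simp [TrivSqZeroExt.algebraMap_eq_inl']
  | add p q hp hq => rw [map_add, TrivSqZeroExt.fst_add, hp, hq, map_add]
  | mul_X p n hp => rw [map_mul, TrivSqZeroExt.fst_mul, hp, aeval_X, map_mul, eval_X]; simp

theorem psi_snd (y v : ι → K) (G : MvPolynomial ι K) :
    (psi y v G).snd = ∑ l, eval y (pderiv l G) * v l := by
  classical
  induction G using MvPolynomial.induction_on with
  | C a =>
    unfold psi
    simp [TrivSqZeroExt.algebraMap_eq_inl']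
  | add p q hp hq =>
    rw [map_add, TrivSqZeroExt.snd_add, hp, hq, ← Finset.sum_add_distrib]
    refine Finset.sum_congr rfl fun l _ => ?_
    rw [map_add, map_add]; ring
  | mul_X p n hp =>
    rw [map_mul, TrivSqZeroExt.snd_mul, hp, psi_fst]
    have e1 : psi y v (X n) = TrivSqZeroExt.inl (y n) + TrivSqZeroExt.inr (v n) := by
      unfold psi; rw [aeval_X]
    rw [e1]
    simp only [TrivSqZeroExt.fst_add, TrivSqZeroExt.snd_add, TrivSqZeroExt.fst_inl,
      TrivSqZeroExt.snd_inl, TrivSqZeroExt.fst_inr, TrivSqZeroExt.snd_inr, add_zero, zero_add,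
      smul_eq_mul, MulOpposite.smul_eq_mul_unop, MulOpposite.unop_op]
    have e2 : ∀ l, eval y (pderiv l (p * X n)) * v l =
        eval y (pderiv l p) * v l * y n + eval y p * (if n = l then v l else 0) := by
      intro l
      rw [pderiv_mul, pderiv_X, map_add, map_mul, map_mul, eval_X]
      by_cases h : n = l
      · subst h; simp; ring
      · simp [h, Pi.single_apply]; ring
    simp_rw [e2]
    rw [Finset.sum_add_distrib, ← Finset.sum_mul, ← Finset.mul_sum, Finset.sum_ite_eq]
    simp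
    ring

end dual

/-! ### the derivation -/

section deriv

variable {K L ι : Type} [Field K] [Field L] [Algebra K L] [Fintype ι] {X' : ι → L} (i : ι)

/-- the chart -/
abbrev Ch (X' : ι → L) (i : ι) : Subalgebra K L :=
  Algebra.adjoin K (insert (X' i)⁻¹ (Set.range X'))

theorem mem_ch (l : ι) : X' l ∈ Ch (K := K) X' i :=
  Algebra.subset_adjoin (Set.mem_insert_of_mem _ ⟨l, rfl⟩)

theorem inv_mem_ch : (X' i)⁻¹ ∈ Ch (K := K) X' i :=
  Algebra.subset_adjoin (Set.mem_insert _ _)

/-- numerators -/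
def Rr (b : L) (N : ℕ) (G : MvPolynomial ι K) : Prop := X' i ^ N * b = aeval X' G

theorem exists_num (hi : X' i ≠ 0) {b : L} (hb : b ∈ Ch (K := K) X' i) :
    ∃ (N : ℕ) (G : MvPolynomial ι K), X' i ^ N * b = aeval X' G := by
  induction hb using Algebra.adjoin_induction with
  | mem b hb =>
    rcases hb with rfl | ⟨l, rfl⟩
    · exact ⟨1, 1, by rw [pow_one, mul_inv_cancel₀ hi, map_one]⟩
    · exact ⟨0, X l, by rw [pow_zero, one_mul, aeval_X]⟩
  | algebraMap c => exact ⟨0, C c, by rw [pow_zero, one_mul, aeval_C]⟩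
  | add a b _ _ ha hb =>
    obtain ⟨N, G, h1⟩ := ha
    obtain ⟨M, H, h2⟩ := hb
    refine ⟨N + M, X i ^ M * G + X i ^ N * H, ?_⟩
    rw [map_add, map_mul, map_mul, map_pow, map_pow, aeval_X, ← h1, ← h2]; ring
  | mul a b _ _ ha hb =>
    obtain ⟨N, G, h1⟩ := ha
    obtain ⟨M, H, h2⟩ := hb
    refine ⟨N + M, G * H, ?_⟩
    rw [map_mul, ← h1, ← h2]; ring

/-- the point -/
def pt (y : Ch (K := K) X' i →ₐ[K] K) (l : ι) : K := y ⟨X' l, mem_ch i l⟩

theorem aeval_ch (G : MvPolynomial ι K) :
    ((aeval (fun l => (⟨X' l, mem_ch i l⟩ : Ch (K := K) X' i)) G : Ch (K := K) X' i) : L) =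
      aeval X' G := by
  have := MvPolynomial.aeval_algebraMap_apply (A := Ch (K := K) X' i) (B := L)
    (fun l => (⟨X' l, mem_ch i l⟩ : Ch (K := K) X' i)) G
  exact this.symm

theorem y_num (y : Ch (K := K) X' i →ₐ[K] K) {b : Ch (K := K) X' i} {N : ℕ}
    {G : MvPolynomial ι K} (h : X' i ^ N * (b : L) = aeval X' G) :
    pt i y i ^ N * y b = eval (pt i y) G := by
  have h1 : (⟨X' i, mem_ch i i⟩ : Ch (K := K) X' i) ^ N * b =
      aeval (fun l => (⟨X' l, mem_ch i l⟩ : Ch (K := K) X' i)) G := by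
    apply Subtype.ext
    rw [aeval_ch]
    exact h
  have h2 := congrArg y h1
  rw [map_mul, map_pow] at h2
  have h3 : y (aeval (fun l => (⟨X' l, mem_ch i l⟩ : Ch (K := K) X' i)) G) = eval (pt i y) G := by
    rw [← AlgHom.comp_apply, MvPolynomial.comp_aeval]
    rw [MvPolynomial.aeval_def, MvPolynomial.eval]
    rfl
  rw [h3] at h2
  exact h2

theorem pt_ne (hi : X' i ≠ 0) (y : Ch (K := K) X' i →ₐ[K] K) : pt i y i ≠ 0 := by
  have h1 : (⟨X' i, mem_ch i i⟩ : Ch (K := K) X' i) * ⟨(X' i)⁻¹, inv_mem_ch i⟩ = 1 := by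
    apply Subtype.ext
    exact mul_inv_cancel₀ hi
  have h2 := congrArg y h1
  rw [map_mul, map_one] at h2
  intro h0
  have h3 : pt i y i * y ⟨(X' i)⁻¹, inv_mem_ch i⟩ = 1 := h2
  rw [h0, zero_mul] at h3
  exact zero_ne_one h3

theorem eval_zero (y : Ch (K := K) X' i →ₐ[K] K) {G : MvPolynomial ι K} (h : aeval X' G = 0) :
    eval (pt i y) G = 0 := by
  have := y_num i y (b := 0) (N := 0) (G := G) (by rw [h]; simp)
  rw [← this]; simp

variable (hi : X' i ≠ 0) (y : Ch (K := K) X' i →ₐ[K] K) (v : ι → K)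
  (hv : v ∈ Tan K X' (pt i y))

include hv in
theorem psi_zero {G : MvPolynomial ι K} (h : aeval X' G = 0) : psi (pt i y) v G = 0 := by
  apply TrivSqZeroExt.ext
  · rw [psi_fst, eval_zero i y h]; rfl
  · rw [psi_snd]
    have h1 := hv G h
    have : ∀ l, aeval (pt i y) (pderiv l G) = eval (pt i y) (pderiv l G) := fun l => by
      rw [MvPolynomial.aeval_def, MvPolynomial.eval]; rfl
    simp_rw [this] at h1
    exact h1

/-- the inverse -/
noncomputable def ww : DualNumber K :=
  TrivSqZeroExt.inl (pt i y i)⁻¹ + TrivSqZeroExt.inr (-(v i) * (pt i y i)⁻¹ ^ 2)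

include hi in
theorem zw : psi (pt i y) v (X i) * ww i y v = 1 := by
  have hne := pt_ne i hi y
  have e1 : psi (pt i y) v (X i) = TrivSqZeroExt.inl (pt i y i) + TrivSqZeroExt.inr (v i) := by
    unfold psi; rw [aeval_X]
  rw [e1]
  unfold ww
  apply TrivSqZeroExt.ext
  · simp [hne]
  · simp
    field_simp
    ring

include hi hv in
theorem wd {b : L} {N M : ℕ} {G H : MvPolynomial ι K} (h1 : X' i ^ N * b = aeval X' G)
    (h2 : X' i ^ M * b = aeval X' H) :
    psi (pt i y) v G * ww i y v ^ N = psi (pt i y) v H * ww i y v ^ M := by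
  have h3 : aeval X' (X i ^ M * G - X i ^ N * H) = 0 := by
    rw [map_sub, map_mul, map_mul, map_pow, map_pow, aeval_X, ← h1, ← h2]; ring
  have h4 := psi_zero i y v hv h3
  rw [map_sub, map_mul, map_mul, map_pow, map_pow, sub_eq_zero] at h4
  have h5 := zw i hi y v
  set z := psi (pt i y) v (X i)
  set w := ww i y v
  have h6 : ∀ n : ℕ, z ^ n * w ^ n = 1 := fun n => by rw [← mul_pow, h5, one_pow]
  calc psi (pt i y) v G * w ^ N = (z ^ M * psi (pt i y) v G) * w ^ M * w ^ N := by
        rw [mul_comm (z ^ M), mul_assoc (psi (pt i y) v G), h6, mul_one]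
    _ = (z ^ N * psi (pt i y) v H) * w ^ M * w ^ N := by rw [h4]
    _ = psi (pt i y) v H * w ^ M * (z ^ N * w ^ N) := by ring
    _ = _ := by rw [h6, mul_one]

/-- the algebra map to the dual numbers -/
noncomputable def Ph (b : Ch (K := K) X' i) : DualNumber K :=
  psi (pt i y) v (exists_num i hi b.2).choose_spec.choose *
    ww i y v ^ (exists_num i hi b.2).choose

include hv in
theorem Ph_eq {b : Ch (K := K) X' i} {N : ℕ} {G : MvPolynomial ι K}
    (h : X' i ^ N * (b : L) = aeval X' G) :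
    Ph i hi y v b = psi (pt i y) v G * ww i y v ^ N :=
  wd i hi y v hv (exists_num i hi b.2).choose_spec.choose_spec h

include hv in
theorem Ph_add (a b : Ch (K := K) X' i) :
    Ph i hi y v (a + b) = Ph i hi y v a + Ph i hi y v b := by
  obtain ⟨N, G, h1⟩ := exists_num i hi a.2
  obtain ⟨M, H, h2⟩ := exists_num i hi b.2
  have h3 : X' i ^ (N + M) * ((a + b : Ch (K := K) X' i) : L) =
      aeval X' (X i ^ M * G + X i ^ N * H) := by
    rw [map_add, map_mul, map_mul, map_pow, map_pow, aeval_X, ← h1, ← h2]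
    push_cast
    ring
  rw [Ph_eq i hi y v hv h3, Ph_eq i hi y v hv h1, Ph_eq i hi y v hv h2, map_add, map_mul, map_mul,
    map_pow, map_pow]
  have h5 := zw i hi y v
  set z := psi (pt i y) v (X i)
  set w := ww i y v
  have h6 : ∀ n : ℕ, z ^ n * w ^ n = 1 := fun n => by rw [← mul_pow, h5, one_pow]
  calc (z ^ M * psi (pt i y) v G + z ^ N * psi (pt i y) v H) * w ^ (N + M)
      = psi (pt i y) v G * w ^ N * (z ^ M * w ^ M) + psi (pt i y) v H * w ^ M * (z ^ N * w ^ N) := by
        rw [pow_add]; ring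
    _ = _ := by rw [h6, h6, mul_one, mul_one]

include hv in
theorem Ph_mul (a b : Ch (K := K) X' i) :
    Ph i hi y v (a * b) = Ph i hi y v a * Ph i hi y v b := by
  obtain ⟨N, G, h1⟩ := exists_num i hi a.2
  obtain ⟨M, H, h2⟩ := exists_num i hi b.2
  have h3 : X' i ^ (N + M) * ((a * b : Ch (K := K) X' i) : L) = aeval X' (G * H) := by
    rw [map_mul, ← h1, ← h2]
    push_cast
    ring
  rw [Ph_eq i hi y v hv h3, Ph_eq i hi y v hv h1, Ph_eq i hi y v hv h2, map_mul]
  ring

include hv in
theorem Ph_smul (c : K) (a : Ch (K := K) X' i) :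
    Ph i hi y v (c • a) = c • Ph i hi y v a := by
  obtain ⟨N, G, h1⟩ := exists_num i hi a.2
  have h3 : X' i ^ N * ((c • a : Ch (K := K) X' i) : L) = aeval X' (c • G) := by
    rw [map_smul, ← h1]
    show X' i ^ N * (c • (a : L)) = _
    rw [mul_smul_comm]
  rw [Ph_eq i hi y v hv h3, Ph_eq i hi y v hv h1, map_smul, smul_mul_assoc]

include hv in
theorem Ph_fst (b : Ch (K := K) X' i) : (Ph i hi y v b).fst = y b := by
  obtain ⟨N, G, h1⟩ := exists_num i hi b.2
  rw [Ph_eq i hi y v hv h1, TrivSqZeroExt.fst_mul, psi_fst, ← y_num i y h1]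
  have h2 : (ww i y v ^ N).fst = (pt i y i)⁻¹ ^ N := by
    rw [TrivSqZeroExt.fst_pow]
    unfold ww
    simp
  rw [h2]
  have hne := pt_ne i hi y
  rw [mul_comm (pt i y i ^ N), mul_assoc, ← mul_pow, mul_inv_cancel₀ hne, one_pow, mul_one]

/-- the derivation -/
noncomputable def del : Ch (K := K) X' i →ₗ[K] K where
  toFun b := (Ph i hi y v b).snd
  map_add' a b := by rw [Ph_add i hi y v hv]; rfl
  map_smul' c a := by rw [Ph_smul i hi y v hv]; rfl

theorem del_mul (a b : Ch (K := K) X' i) :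
    del i hi y v hv (a * b) = y a * del i hi y v hv b + y b * del i hi y v hv a := by
  show (Ph i hi y v (a * b)).snd = y a * (Ph i hi y v b).snd + y b * (Ph i hi y v a).snd
  rw [Ph_mul i hi y v hv, TrivSqZeroExt.snd_mul, Ph_fst i hi y v hv, Ph_fst i hi y v hv]
  simp [mul_comm]

theorem del_lin (u : ι → K) (θ : Ch (K := K) X' i) (hθ : (θ : L) = ∑ l, u l • X' l) :
    del i hi y v hv θ = ∑ l, u l * v l := by
  have h1 : X' i ^ 0 * (θ : L) = aeval X' (∑ l, u l • (X l : MvPolynomial ι K)) := by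
    rw [pow_zero, one_mul, hθ, map_sum]
    refine Finset.sum_congr rfl fun l _ => ?_
    rw [map_smul, aeval_X]
  show (Ph i hi y v θ).snd = _
  rw [Ph_eq i hi y v hv h1, pow_zero, mul_one, map_sum, TrivSqZeroExt.snd_sum]
  refine Finset.sum_congr rfl fun l _ => ?_
  rw [map_smul]
  unfold psi
  rw [aeval_X]
  simp

end deriv

theorem core {k k' L L' ι : Type} [Field k] [Field k'] [IsAlgClosed k'] [Field L] [Field L']
    [Algebra k L] [Algebra k k'] [Algebra k L'] [Algebra k' L'] [Algebra L L'] [Fintype ι]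
    [IsScalarTower k k' L'] [IsScalarTower k L L']
    (hTAN : S_TAN) (hBERP : S_BERP) (hBS : S_BS)
    (x : ι → L) (D : ℕ) (u : ι → k') (hM : Model k x) (hD : Algebra.trdeg k L = (D : Cardinal))
    (hu : AlgebraicIndependent k u) (X' : ι → L') (hX' : ∀ l, X' l = algebraMap L L' (x l))
    (hM' : Model k' X') (hD' : Algebra.trdeg k' L' = (D : Cardinal)) (hSC : SmoothCharts k' X')
    (hTan : ∀ y : ι → k', Tan k x y = Tan k' X' y) (i : ι) (θ : Ch (K := k') X' i)
    (hθ : (θ : L') = ∑ l, u l • X' l) :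
    Algebra.Smooth k' (Ch (K := k') X' i ⧸ Ideal.span {θ}) := by
  have hi := hM'.ne i
  have hsm : Algebra.Smooth k' (Ch (K := k') X' i) := hSC i
  refine hBS k' _ θ (fun y _ => ?_)
  have hy0 : pt (K := k') (X' := X') i y ≠ 0 := fun h0 =>
    pt_ne i hi y (by rw [h0]; rfl)
  have hz : ∀ {G : MvPolynomial ι k'}, aeval X' G = 0 →
      eval (pt (K := k') (X' := X') i y) G = 0 := fun {G} h => eval_zero i y h
  have hpt : IsPt k' X' (pt (K := k') (X' := X') i y) := ⟨hy0, fun d G _ hG => hz hG⟩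
  have hfr := hTAN k' L' ι X' D _ hM' hSC hD' hpt
  obtain ⟨v, hv, hne⟩ := hBERP k k' L ι x D u (pt (K := k') (X' := X') i y) hM hD hu hy0
    (fun d G _ hG => by
      have h1 : aeval X' (G.map (algebraMap k k')) = 0 := by
        rw [aeval_map_algebraMap, show X' = fun l => algebraMap L L' (x l) from funext hX']
        have := MvPolynomial.aeval_algebraMap_apply (A := L) (B := L') x G
        rw [hG, map_zero] at this
        exact this
      have h2 := hz h1
      rw [eval_map] at h2
      exact h2)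
    (by rw [hTan]; exact hfr.ge)
  rw [hTan] at hv
  exact ⟨del i hi y v hv, del_mul i hi y v hv, by rw [del_lin i hi y v hv u θ hθ]; exact hne⟩

/-- the linear form is not zero -/
theorem form_ne {k k' L L' ι : Type} [Field k] [Field k'] [Field L] [Field L']
    [Algebra k L] [Algebra k k'] [Algebra k L'] [Algebra k' L'] [Algebra L L'] [Fintype ι]
    [IsScalarTower k k' L'] [IsScalarTower k L L']
    (x : ι → L) (D : ℕ) (u : ι → k') (hM : Model k x) (hD : Algebra.trdeg k L = (D : Cardinal))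
    (hD2 : 2 ≤ D) (hu : AlgebraicIndependent k u) (hDisj : Disj k k' L L') :
    ∑ i, u i • algebraMap L L' (x i) ≠ 0 := by
  have hne : Nonempty ι := by
    by_contra hemp
    rw [not_nonempty_iff] at hemp
    have halg : Algebra.IsAlgebraic k L := by
      refine ⟨fun a => ?_⟩
      obtain ⟨G, H, hH, ha⟩ := hM.gen a
      rw [MvPolynomial.eq_C_of_isEmpty G, MvPolynomial.eq_C_of_isEmpty H, aeval_C, aeval_C] at ha
      rw [MvPolynomial.eq_C_of_isEmpty H, aeval_C] at hH
      have : a = algebraMap k L (coeff 0 G / coeff 0 H) := by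
        rw [map_div₀, eq_div_iff hH, ha]
      rw [this]
      exact isAlgebraic_algebraMap _
    have h0 : Algebra.trdeg k L = 0 := trdeg_eq_zero
    rw [hD] at h0
    have : D = 0 := by exact_mod_cast h0
    omega
  intro h0
  have hlin : LinearIndependent k u := hu.linearIndependent
  have h1 := Pool.Agent.Y73.GS.disj_rev hDisj hlin
  rw [Fintype.linearIndependent_iff] at h1
  obtain ⟨l⟩ := hne
  have h2 := h1 x (by
    rw [← h0]
    refine Finset.sum_congr rfl fun l _ => ?_
    rw [Algebra.smul_def, Algebra.smul_def, mul_comm]) l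
  exact hM.ne l h2

theorem exists_generic (k ι : Type) [Field k] : ∃ (k' : Type) (_ : Field k') (_ : IsAlgClosed k')
    (_ : Algebra k k') (u : ι → k'), AlgebraicIndependent k u := by
  let A := MvPolynomial ι k
  refine ⟨AlgebraicClosure (FractionRing A), inferInstance, inferInstance, inferInstance,
    fun l => algebraMap A (AlgebraicClosure (FractionRing A)) (X l), ?_⟩
  have hAk : Function.Injective (algebraMap A (AlgebraicClosure (FractionRing A))) := by
    rw [IsScalarTower.algebraMap_eq A (FractionRing A) (AlgebraicClosure (FractionRing A))]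
    exact (algebraMap (FractionRing A) (AlgebraicClosure (FractionRing A))).injective.comp
      (IsFractionRing.injective A _)
  have h1 : AlgebraicIndependent k (X : ι → A) := MvPolynomial.algebraicIndependent_X ι k
  exact h1.map' (f := IsScalarTower.toAlgHom k A (AlgebraicClosure (FractionRing A))) hAk

theorem bera : S_BCM → S_TAN → S_BERP → S_BS → S_BERA := by
  intro hBCM hTAN hBERP hBS k L ι _ _ _ _ _ x D hM hSC hD hD2
  obtain ⟨k', j1, j2, j3, u, hu⟩ := exists_generic k ι
  obtain ⟨L', i1, i2, i3, i4, i5, i6, hDisj, hM', hD', hSC', hTan⟩ :=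
    hBCM k k' L ι x D hM hD
  refine ⟨k', j1, j2, j3, L', i1, i2, i3, i4, i5, i6, u, hDisj,
    hM', hD', form_ne x D u hM hD hD2 hu hDisj, ?_⟩
  intro i θ hθ
  exact core hTAN hBERP hBS x D u hM hD hu (fun l => algebraMap L L' (x l)) (fun _ => rfl) hM' hD'
    (hSC' hSC) hTan i θ hθ

end Pool.Agent.Y786.GS
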